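import Pool.Agent.J6H33.Mono.Count

set_option autoImplicit false

/-!
# Dense point sets which need superlinearly many monotone paths

The points are `z + e(z) (1, N + 1)`, `z` in an `N × N` grid, where the tiny numbers `e(z)`
increase extremely fast along the lexicographic order of the grid. Any covering of all segments by
monotone paths uses at least `c n log n` paths.
-/

namespace Pool.Agent.Results.MP_9c8b61_co.SuperlinearDense

open Pool.Agent.R143.MonoPath Pool.Agent.J6H33.Mono Filter Topology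

theorem exists_set (n : ℕ) : ∃ S : Finset (ℕ × ℕ),
    Box (Nat.sqrt n) ⊆ S ∧ S ⊆ Box (Nat.sqrt n + 1) ∧ S.card = n := by
  have h1 : Box (Nat.sqrt n) ⊆ Box (Nat.sqrt n + 1) := by
    intro z hz
    rw [mem_Box] at hz ⊢
    omega
  have h2 : (Box (Nat.sqrt n)).card ≤ n := by
    rw [card_Box]; exact Nat.sqrt_le n
  have h3 : n ≤ (Box (Nat.sqrt n + 1)).card := by
    rw [card_Box]; exact (Nat.lt_succ_sqrt n).le
  obtain ⟨S, a, b, c⟩ := Finset.exists_subsuperset_card_eq h1 h2 h3
  exact ⟨S, a, b, c⟩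

open scoped Classical in
/-- The `n`-point set. -/
noncomputable def A (n : ℕ) : Finset Plane :=
  ((exists_set n).choose).image (f (Nat.sqrt n + 1))

theorem A_card (n : ℕ) : (A n).card = n := by
  classical
  obtain ⟨h1, h2, h3⟩ := (exists_set n).choose_spec
  unfold A
  rw [Finset.card_image_of_injOn]
  · exact h3
  · intro z hz z' hz' h
    exact f_inj (h2 hz) (h2 hz') h

theorem A_gp (n : ℕ) : GeneralPosition (A n) := by
  classical
  obtain ⟨h1, h2, h3⟩ := (exists_set n).choose_spec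
  have := generalPosition h2
  unfold A
  convert this

theorem A_dense (n : ℕ) : IsDense 8 (A n) := by
  classical
  obtain ⟨h1, h2, h3⟩ := (exists_set n).choose_spec
  rcases Nat.eq_zero_or_pos n with h0 | hpos
  · intro a ha
    exfalso
    have : (A n).card = 0 := by rw [A_card]; exact h0
    rw [Finset.card_eq_zero] at this
    rw [this] at ha
    simp at ha
  · have := isDense h2 (by
      rw [h3]
      have h4 : ((Nat.sqrt n : ℕ) : ℝ) ≤ √(n : ℝ) := Real.nat_sqrt_le_real_sqrt
      have h5 : (1 : ℝ) ≤ √(n : ℝ) := by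
        rw [Real.one_le_sqrt]
        exact_mod_cast hpos
      push_cast
      linarith)
    unfold A
    convert this

theorem mc_ge (n : ℕ) : ∑ τ ∈ T (Nat.sqrt n / 2) (Nat.sqrt n / 4), τ.2.1 ≤
    mc (A n) * (7 * ((Nat.sqrt n + 1) * (Nat.sqrt n + 1))) := by
  classical
  obtain ⟨h1, h2, h3⟩ := (exists_set n).choose_spec
  apply cover_ge (M := Nat.sqrt n) (N := Nat.sqrt n + 1) (S := (exists_set n).choose) (by omega)
    (by omega) (by omega) (by omega) h2 h1
  have := hasCover_mc (A n)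
  convert this
  unfold A
  congr

theorem mc_log {n : ℕ} (hn : 400 ≤ n) : (1 / 20000 : ℝ) * (n * Real.log n) ≤ mc (A n) := by
  obtain ⟨M, hM⟩ : ∃ M, M = Nat.sqrt n := ⟨_, rfl⟩
  have hM20 : 20 ≤ M := by
    rw [hM, Nat.le_sqrt]; omega
  have hlt : n < (M + 1) * (M + 1) := by rw [hM]; exact Nat.lt_succ_sqrt n
  have h1 := mc_ge n
  rw [← hM] at h1
  have h2 := sum_T_ge (h := M / 2) (D := M / 4) (by omega)
  have h3 : ((∑ τ ∈ T (M / 2) (M / 4), τ.2.1 : ℕ) : ℝ) ≤
      mc (A n) * (7 * (((M : ℝ) + 1) * ((M : ℝ) + 1))) := by exact_mod_cast h1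
  have h4 := h2.trans h3
  set h : ℝ := ((M / 2 : ℕ) : ℝ) with hh
  set D : ℝ := ((M / 4 : ℕ) : ℝ) with hD
  have hMr : (20 : ℝ) ≤ M := by exact_mod_cast hM20
  have e1 : (M : ℝ) ≤ 2 * h + 1 := by
    rw [hh]; have : M ≤ 2 * (M / 2) + 1 := by omega
    exact_mod_cast this
  have e2 : (M : ℝ) ≤ 4 * (D + 1) := by
    rw [hD]; have : M ≤ 4 * (M / 4 + 1) := by omega
    exact_mod_cast this
  have hn1 : (n : ℝ) ≤ (M + 1) ^ 2 := by
    have : (n : ℝ) ≤ (M + 1) * (M + 1) := by exact_mod_cast hlt.le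
    linarith
  have hnpos : (0 : ℝ) < n := by
    have : (0 : ℕ) < n := by omega
    exact_mod_cast this
  -- the logarithm
  have hlog : Real.log n ≤ 4 * Real.log (D + 1) := by
    have h5 : Real.log n ≤ Real.log ((D + 1) ^ 4) := by
      apply Real.log_le_log hnpos
      refine hn1.trans ?_
      have h6 : (M : ℝ) + 1 ≤ (D + 1) ^ 2 := by nlinarith
      have h7 := pow_le_pow_left₀ (by linarith : (0 : ℝ) ≤ (M : ℝ) + 1) h6 2
      calc ((M : ℝ) + 1) ^ 2 ≤ ((D + 1) ^ 2) ^ 2 := h7
        _ = (D + 1) ^ 4 := by ring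
    rw [Real.log_pow] at h5
    exact_mod_cast h5
  have hlog0 : 0 ≤ Real.log n := Real.log_natCast_nonneg n
  have hL : Real.log n / 4 ≤ Real.log (D + 1) := by linarith
  -- the power of h
  have e3 : ((M : ℝ) + 1) / 3 ≤ h := by linarith
  have e4 : (((M : ℝ) + 1) / 3) ^ 4 ≤ h ^ 4 := pow_le_pow_left₀ (by positivity) e3 4
  have e5 : (((M : ℝ) + 1) / 3) ^ 4 / 8 * (Real.log n / 4) ≤
      mc (A n) * (7 * (((M : ℝ) + 1) * ((M : ℝ) + 1))) := by
    refine le_trans ?_ h4
    apply mul_le_mul _ hL (by positivity) (by positivity)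
    linarith
  have hP : (0 : ℝ) < ((M : ℝ) + 1) ^ 2 := by positivity
  have e6 : ((M : ℝ) + 1) ^ 2 * (((M : ℝ) + 1) ^ 2 / 18144 * Real.log n) ≤
      ((M : ℝ) + 1) ^ 2 * mc (A n) := by
    have : (((M : ℝ) + 1) / 3) ^ 4 / 8 * (Real.log n / 4) =
      7 * (((M : ℝ) + 1) ^ 2 * (((M : ℝ) + 1) ^ 2 / 18144 * Real.log n)) := by ring
    rw [this] at e5
    linarith
  have e7 := le_of_mul_le_mul_left e6 hP
  refine le_trans ?_ e7
  have e8 : (n : ℝ) * Real.log n ≤ ((M : ℝ) + 1) ^ 2 * Real.log n :=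
    mul_le_mul_of_nonneg_right hn1 hlog0
  have e9 : 0 ≤ (n : ℝ) * Real.log n := by positivity
  linarith

/-- **Q1 of MP_9c8b61_co has the answer yes.** There are `α` and, for every `n`, an `α`-dense
`n`-point set `A n` in general position such that every covering of the segments between points of
`A n` by monotone paths has at least `c n log n` paths, for all large `n`; in particular
`mc (A n) / n → ∞`. -/
theorem result : ∃ (α c : ℝ), 0 < α ∧ 0 < c ∧ ∃ A : ℕ → Finset Plane,
    (∀ n : ℕ, (A n).card = n ∧ GeneralPosition (A n) ∧ IsDense α (A n)) ∧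
    (∀ᶠ n : ℕ in atTop, c * (n * Real.log n) ≤ mc (A n)) ∧
    Tendsto (fun n : ℕ => (mc (A n) : ℝ) / n) atTop atTop := by
  refine ⟨8, 1 / 20000, by norm_num, by norm_num, A, fun n => ⟨A_card n, A_gp n, A_dense n⟩,
    ?_, ?_⟩
  · filter_upwards [eventually_ge_atTop 400] with n hn
    exact mc_log hn
  · have h1 : Tendsto (fun n : ℕ => (1 / 20000 : ℝ) * Real.log n) atTop atTop := by
      apply Tendsto.const_mul_atTop (by norm_num)
      exact Real.tendsto_log_atTop.comp tendsto_natCast_atTop_atTop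
    apply tendsto_atTop_mono' _ _ h1
    filter_upwards [eventually_ge_atTop 400] with n hn
    have hpos : (0 : ℝ) < n := by
      have : 0 < n := by omega
      exact_mod_cast this
    rw [le_div_iff₀ hpos]
    have := mc_log hn
    linarith

end Pool.Agent.Results.MP_9c8b61_co.SuperlinearDense
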